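import Pool.Agent.H798.BV.Stm2

set_option autoImplicit false

/-!
# The lower bound of the exponent (S_REAL) from the pointwise inequalities (S_PTW)
-/

namespace Pool.Agent.H105.BV

open Pool.Agent.H798.BV
open scoped ComplexConjugate

/-! ### Means -/

/-- The mean value. -/
noncomputable def av {m : ℕ} (f : Fin m → ℝ) : ℝ := (∑ k, f k) / m

lemma av_mono {m : ℕ} {f g : Fin m → ℝ} (h : ∀ k, f k ≤ g k) : av f ≤ av g :=
  div_le_div_of_nonneg_right (Finset.sum_le_sum fun k _ => h k) (Nat.cast_nonneg _)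

lemma av_add {m : ℕ} (f g : Fin m → ℝ) : av (fun k => f k + g k) = av f + av g := by
  unfold av
  rw [Finset.sum_add_distrib, add_div]

lemma av_sub {m : ℕ} (f g : Fin m → ℝ) : av (fun k => f k - g k) = av f - av g := by
  unfold av
  rw [Finset.sum_sub_distrib, sub_div]

lemma av_mul {m : ℕ} (c : ℝ) (f : Fin m → ℝ) : av (fun k => c * f k) = c * av f := by
  unfold av
  rw [← Finset.mul_sum, mul_div_assoc]

lemma av_const {m : ℕ} (hm : 1 ≤ m) (c : ℝ) : av (fun _ : Fin m => c) = c := by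
  unfold av
  have : (m : ℝ) ≠ 0 := by positivity
  rw [Finset.sum_const, Finset.card_univ, Fintype.card_fin, nsmul_eq_mul]
  field_simp

lemma av_nonneg {m : ℕ} {f : Fin m → ℝ} (h : ∀ k, 0 ≤ f k) : 0 ≤ av f :=
  div_nonneg (Finset.sum_nonneg fun k _ => h k) (Nat.cast_nonneg _)

lemma av_cs {m : ℕ} {f g : Fin m → ℝ} (hf : ∀ k, 0 ≤ f k) (hg : ∀ k, 0 ≤ g k) :
    av (fun k => √(f k) * √(g k)) ≤ √(av f) * √(av g) := by
  unfold av
  rw [Real.sqrt_div (Finset.sum_nonneg fun k _ => hf k), Real.sqrt_div (Finset.sum_nonneg fun k _ => hg k),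
    div_mul_div_comm, Real.mul_self_sqrt (Nat.cast_nonneg _)]
  exact div_le_div_of_nonneg_right (Real.sum_sqrt_mul_sqrt_le Finset.univ hf hg) (Nat.cast_nonneg _)

lemma av_sqrt {m : ℕ} (hm : 1 ≤ m) {f : Fin m → ℝ} (hf : ∀ k, 0 ≤ f k) :
    av (fun k => √(f k)) ≤ √(av f) := by
  have h := av_cs (g := fun _ : Fin m => (1 : ℝ)) hf (fun _ => zero_le_one)
  rw [av_const hm] at h
  simpa using h

lemma norm_sum_div_le {m : ℕ} (f : Fin m → ℂ) (g : Fin m → ℝ) (h : ∀ k, ‖f k‖ ≤ g k) :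
    ‖∑ k, f k‖ / m ≤ av g :=
  div_le_div_of_nonneg_right (norm_sum_le_of_le _ fun k _ => h k) (Nat.cast_nonneg _)

/-! ### One complex number -/

lemma e_norm {x : ℂ} (hx : x ≠ 0) : ‖x / (‖x‖ : ℂ)‖ = 1 := by
  have h : ‖x‖ ≠ 0 := norm_ne_zero_iff.2 hx
  rw [norm_div, Complex.norm_real, Real.norm_of_nonneg (norm_nonneg x), div_self h]

lemma e_re {x : ℂ} (hx : x ≠ 0) : |(x / (‖x‖ : ℂ)).re| ≤ 1 :=
  (Complex.abs_re_le_norm _).trans (e_norm hx).le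

lemma e_sq_re {x : ℂ} (hx : x ≠ 0) : ((x / (‖x‖ : ℂ)) ^ 2).re = 2 * (x / (‖x‖ : ℂ)).re ^ 2 - 1 := by
  have h := Complex.sq_norm (x / (‖x‖ : ℂ))
  rw [e_norm hx, Complex.normSq_apply] at h
  rw [sq, Complex.mul_re]
  nlinarith

lemma conj_inv {x : ℂ} (hx : x ≠ 0) : conj (x⁻¹) = ((‖x‖⁻¹ : ℝ) : ℂ) * (x / (‖x‖ : ℂ)) := by
  have h : (‖x‖ : ℂ) ≠ 0 := by
    exact_mod_cast norm_ne_zero_iff.2 hx
  have h2 : (starRingEnd ℂ) x ≠ 0 := by simpa using hx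
  have h1 : x * (starRingEnd ℂ) x = (‖x‖ : ℂ) ^ 2 := Complex.mul_conj' x
  rw [map_inv₀, Complex.ofReal_inv]
  field_simp
  rw [mul_comm]
  exact h1.symm

lemma inv_re {x : ℂ} (hx : x ≠ 0) : (x⁻¹).re = ‖x‖⁻¹ * (x / (‖x‖ : ℂ)).re := by
  rw [← Complex.conj_re, conj_inv hx, Complex.re_ofReal_mul]

lemma inv_sq_re {x : ℂ} (hx : x ≠ 0) :
    ((x⁻¹) ^ 2).re = (‖x‖ ^ 2)⁻¹ * (2 * (x / (‖x‖ : ℂ)).re ^ 2 - 1) := by
  rw [← Complex.conj_re, map_pow, conj_inv hx, mul_pow, ← Complex.ofReal_pow, Complex.re_ofReal_mul,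
    e_sq_re hx, inv_pow]

lemma chi_eq {x : ℂ} (hx : x ≠ 0) (p : ℝ) :
    chi p x = ((‖x‖ ^ (p - 1) : ℝ) : ℂ) * (x / (‖x‖ : ℂ)) := by
  have h0 : 0 < ‖x‖ := norm_pos_iff.2 hx
  have h : (‖x‖ : ℂ) ≠ 0 := by exact_mod_cast h0.ne'
  have h1 : ‖x‖ ^ (p - 1) = ‖x‖ ^ (p - 2) * ‖x‖ := by
    rw [← Real.rpow_add_one h0.ne']
    congr 1
    ring
  unfold chi
  rw [h1, Complex.ofReal_mul]
  field_simp

/-! ### The constants -/

lemma bracket {p c : ℝ} (hp2 : 2 < p) (hp3 : p ≤ 3) (hc1 : c < p - 1)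
    (hc2 : c ^ 2 ≤ 19 / 10 * (p - 1)) (u τ : ℝ) (hu0 : 0 ≤ u) (hu1 : u ≤ 1) (hτ0 : 0 ≤ τ)
    (hτ1 : τ ≤ 1) :
    2 * min (1 / 80) ((p - 1 - c) / 4) ≤ 1 + (p - 2) * u ^ 2 - c * u + τ * (u ^ 2 - 1 / 2) := by
  set μ := min (1 / 80) ((p - 1 - c) / 4) with hμ
  have h1 : μ ≤ 1 / 80 := min_le_left _ _
  have h2 : μ ≤ (p - 1 - c) / 4 := min_le_right _ _
  have hB0 : 2 * μ ≤ 1 + (p - 2) * u ^ 2 - c * u := by
    have e : 1 + (p - 2) * u ^ 2 - c * u = (1 - u) * (1 - (p - 2) * u) + (p - 1 - c) * u := by ring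
    rw [e]
    have h4 : 0 ≤ 1 - (p - 2) * u := by nlinarith
    rcases le_total u (1 / 2) with hu | hu
    · have h3 : 1 / 2 ≤ 1 - (p - 2) * u := by nlinarith
      nlinarith [mul_nonneg (by linarith : (0:ℝ) ≤ 1 - u - 1 / 2) (by linarith : (0:ℝ) ≤ 1 - (p - 2) * u - 1 / 2),
        mul_nonneg (by linarith : (0:ℝ) ≤ p - 1 - c) hu0]
    · nlinarith [mul_nonneg (by linarith : (0:ℝ) ≤ 1 - u) h4, mul_nonneg (by linarith : (0:ℝ) ≤ p - 1 - c) (by linarith : (0:ℝ) ≤ u - 1 / 2)]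
  have hB1 : 2 * μ ≤ 1 / 2 + (p - 1) * u ^ 2 - c * u := by
    have hp1 : 0 < p - 1 := by linarith
    have e : 1 / 2 + (p - 1) * u ^ 2 - c * u =
        (p - 1) * (u - c / (2 * (p - 1))) ^ 2 + (1 / 2 - c ^ 2 / (4 * (p - 1))) := by
      field_simp
      ring
    have h3 : c ^ 2 / (4 * (p - 1)) ≤ 19 / 40 := by
      rw [div_le_iff₀ (by linarith)]
      linarith
    have h4 : 0 ≤ (p - 1) * (u - c / (2 * (p - 1))) ^ 2 := by positivity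
    rw [e]
    linarith
  have e : 1 + (p - 2) * u ^ 2 - c * u + τ * (u ^ 2 - 1 / 2) =
      (1 - τ) * (1 + (p - 2) * u ^ 2 - c * u) + τ * (1 / 2 + (p - 1) * u ^ 2 - c * u) := by ring
  rw [e]
  nlinarith [mul_nonneg (by linarith : (0:ℝ) ≤ 1 - τ) (by linarith : (0:ℝ) ≤ 1 + (p - 2) * u ^ 2 - c * u - 2 * μ),
    mul_nonneg hτ0 (by linarith : (0:ℝ) ≤ 1 / 2 + (p - 1) * u ^ 2 - c * u - 2 * μ)]

/-! ### The estimates for one family -/

lemma core {p a K1 K₀ δ c2 κ : ℝ} {m : ℕ} (hm : 1 ≤ m) (x : Fin m → ℂ) (hx0 : ∀ k, x k ≠ 0)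
    (hp2 : 2 < p) (hp3 : p ≤ 3) (ha0 : 0 ≤ a) (ha1 : a ≤ 1) (hδ0 : 0 ≤ δ) (hδ1 : δ ≤ 1) (haδ : a ≤ δ)
    (T : Fin m → ℝ) (hT0 : ∀ k, 0 ≤ T k) (hTm : av T ≤ κ * (a ^ 2 * (1 + δ))) (hκ0 : 0 ≤ κ)
    (hκ3 : κ ≤ 3) (hc2 : 0 ≤ c2) (hc24 : c2 ≤ 4) (hK1 : 0 < K1) (hK₀ : 0 < K₀)
    (hA : ∀ k, |‖x k‖ ^ (p - 2) - 1| ≤ K1 * (T k + √(T k)))
    (hB : ∀ k, |(‖x k‖ ^ 2)⁻¹ - 1| ≤ K1 * (T k + √(T k)))
    (hC : ∀ k, ‖x k‖ < 1 / 2 → (‖x k‖ ^ 2)⁻¹ ≤ K1 * T k)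
    (hD : ∀ k, |‖x k‖ ^ (p - 1) - ‖x k‖⁻¹| ≤ √(c2 * T k) + K1 * T k)
    (hY : ‖∑ k, (chi p (x k) - (a : ℂ) * (‖x k‖ ^ (p - 2) : ℝ)
        * ((p / 2 : ℝ) + ((p - 2) / 2 : ℝ) * (x k / ‖x k‖) ^ 2))‖ ≤ K₀ * (m * (a ^ 2 + a * δ))) :
    ∃ u : ℝ, 0 ≤ u ∧ u ≤ 1 ∧ ‖(∑ k, (x k)⁻¹) / m‖ ≤ (8 + 24 * K1 + 2 * K₀) * a ∧
      a * (1 + (p - 2) * u ^ 2 - √c2 * √κ * u - (24 * K1 + 2 * K₀ + √c2 * √κ) * δ) ≤
        ((∑ k, (x k)⁻¹) / m).re ∧
      2 * u ^ 2 - 1 - 9 * K1 * a ≤ ((∑ k, ((x k)⁻¹) ^ 2) / m).re ∧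
      ∑ k, (if 2 < ‖(x k)⁻¹‖ then ‖(x k)⁻¹‖ ^ 2 else 0) ≤ 6 * K1 * (a ^ 2 * m) := by
  have hm0 : (0 : ℝ) < m := by exact_mod_cast hm
  obtain ⟨c, hc⟩ : ∃ c : Fin m → ℝ, ∀ k, c k = (x k / (‖x k‖ : ℂ)).re := ⟨_, fun k => rfl⟩
  have hc1 : ∀ k, |c k| ≤ 1 := fun k => by rw [hc]; exact e_re (hx0 k)
  have hcsq : ∀ k, c k ^ 2 ≤ 1 := fun k => by
    have := hc1 k
    rw [abs_le] at this
    nlinarith
  obtain ⟨q, hq⟩ : ∃ q : ℝ, q = av (fun k => c k ^ 2) := ⟨_, rfl⟩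
  have hq0 : 0 ≤ q := by rw [hq]; exact av_nonneg fun k => sq_nonneg _
  have hq1 : q ≤ 1 := by
    rw [hq, ← av_const hm 1]
    exact av_mono hcsq
  set u := √q with hu
  have hu0 : 0 ≤ u := Real.sqrt_nonneg _
  have husq : u ^ 2 = q := Real.sq_sqrt hq0
  have hu1 : u ≤ 1 := by
    rw [hu, Real.sqrt_le_iff]
    exact ⟨zero_le_one, by linarith⟩
  -- the mean of `T`
  have hT6 : av T ≤ 6 * a ^ 2 := by
    refine hTm.trans ?_
    have h1 : κ * (a ^ 2 * (1 + δ)) ≤ 3 * (a ^ 2 * 2) := by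
      apply mul_le_mul hκ3 _ (by positivity) (by norm_num)
      exact mul_le_mul_of_nonneg_left (by linarith) (by positivity)
    linarith
  have haa : a ^ 2 ≤ a := by nlinarith
  have hT6' : av T ≤ 6 * a := by linarith
  have hTn : 0 ≤ av T := av_nonneg hT0
  obtain ⟨sT, hsT⟩ : ∃ sT : ℝ, sT = √(av T) := ⟨_, rfl⟩
  have hsT0 : 0 ≤ sT := by rw [hsT]; exact Real.sqrt_nonneg _
  have hs1 : sT ≤ √κ * (a * (1 + δ)) := by
    rw [hsT, Real.sqrt_le_iff]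
    refine ⟨by positivity, hTm.trans ?_⟩
    rw [mul_pow, Real.sq_sqrt hκ0, mul_pow]
    apply mul_le_mul_of_nonneg_left _ hκ0
    apply mul_le_mul_of_nonneg_left _ (by positivity)
    nlinarith
  have hs2 : sT ≤ 3 * a := by
    rw [hsT, Real.sqrt_le_iff]
    exact ⟨by positivity, by nlinarith⟩
  have hsq : av (fun k => √(T k)) ≤ sT := by
    rw [hsT]
    exact av_sqrt hm hT0
  have hb12 : av (fun k => K1 * (T k + √(T k))) ≤ 9 * K1 * a := by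
    rw [av_mul, av_add]
    have h1 : av T + av (fun k => √(T k)) ≤ 9 * a := by linarith
    calc K1 * (av T + av (fun k => √(T k))) ≤ K1 * (9 * a) := mul_le_mul_of_nonneg_left h1 hK1.le
      _ = _ := by ring
  have hb1 : av (fun k => |‖x k‖ ^ (p - 2) - 1|) ≤ 9 * K1 * a := (av_mono hA).trans hb12
  have hb2 : av (fun k => |(‖x k‖ ^ 2)⁻¹ - 1|) ≤ 9 * K1 * a := (av_mono hB).trans hb12
  have hsc2 : √c2 ≤ 2 := by
    rw [Real.sqrt_le_iff]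
    exact ⟨by norm_num, by linarith⟩
  have hsc0 : 0 ≤ √c2 := Real.sqrt_nonneg _
  have hD' : ∀ k, |‖x k‖ ^ (p - 1) - ‖x k‖⁻¹| ≤ √c2 * √(T k) + K1 * T k := fun k => by
    have := hD k
    rwa [Real.sqrt_mul hc2] at this
  have hb3 : av (fun k => |‖x k‖ ^ (p - 1) - ‖x k‖⁻¹|) ≤ 6 * a + 6 * K1 * a := by
    refine (av_mono hD').trans ?_
    rw [av_add, av_mul, av_mul]
    have h1 : √c2 * av (fun k => √(T k)) ≤ 2 * (3 * a) :=
      mul_le_mul hsc2 (hsq.trans hs2) (av_nonneg fun k => Real.sqrt_nonneg _) (by norm_num)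
    have h2 : K1 * av T ≤ K1 * (6 * a) := mul_le_mul_of_nonneg_left hT6' hK1.le
    linarith
  have hb4 : av (fun k => |‖x k‖ ^ (p - 1) - ‖x k‖⁻¹| * |c k|) ≤
      √c2 * √κ * (a * (1 + δ)) * u + 6 * K1 * a ^ 2 := by
    have h1 : ∀ k, |‖x k‖ ^ (p - 1) - ‖x k‖⁻¹| * |c k| ≤
        √c2 * (√(T k) * √(c k ^ 2)) + K1 * T k := by
      intro k
      rw [Real.sqrt_sq_eq_abs]
      have h2 := mul_le_mul_of_nonneg_right (hD' k) (abs_nonneg (c k))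
      have h3 : K1 * T k * |c k| ≤ K1 * T k * 1 :=
        mul_le_mul_of_nonneg_left (hc1 k) (mul_nonneg hK1.le (hT0 k))
      calc |‖x k‖ ^ (p - 1) - ‖x k‖⁻¹| * |c k| ≤ (√c2 * √(T k) + K1 * T k) * |c k| := h2
        _ = √c2 * (√(T k) * |c k|) + K1 * T k * |c k| := by ring
        _ ≤ _ := by linarith
    refine (av_mono h1).trans ?_
    rw [av_add, av_mul, av_mul]
    have h2 : av (fun k => √(T k) * √(c k ^ 2)) ≤ sT * u := by
      rw [hsT, hu, hq]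
      exact av_cs hT0 (fun k => sq_nonneg _)
    have h3 : √c2 * av (fun k => √(T k) * √(c k ^ 2)) ≤ √c2 * (√κ * (a * (1 + δ)) * u) := by
      apply mul_le_mul_of_nonneg_left _ hsc0
      exact h2.trans (mul_le_mul_of_nonneg_right hs1 hu0)
    have h4 : K1 * av T ≤ K1 * (6 * a ^ 2) := mul_le_mul_of_nonneg_left hT6 hK1.le
    linarith
  -- the hypothesis on the sum of the gradients, in terms of means
  obtain ⟨Y, hYd⟩ : ∃ Y : ℂ, Y = ∑ k, (chi p (x k) - (a : ℂ) * (‖x k‖ ^ (p - 2) : ℝ)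
        * ((p / 2 : ℝ) + ((p - 2) / 2 : ℝ) * (x k / ‖x k‖) ^ 2)) := ⟨_, rfl⟩
  rw [← hYd] at hY
  have hY' : ‖Y‖ / m ≤ K₀ * (a ^ 2 + a * δ) := by
    rw [div_le_iff₀ hm0]
    linarith
  have hYre : Y.re / m = av (fun k => ‖x k‖ ^ (p - 1) * c k -
      a * ‖x k‖ ^ (p - 2) * (1 + (p - 2) * c k ^ 2)) := by
    unfold av
    rw [hYd, Complex.re_sum]
    congr 1
    refine Finset.sum_congr rfl fun k _ => ?_
    rw [Complex.sub_re, chi_eq (hx0 k), Complex.re_ofReal_mul, ← Complex.ofReal_mul,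
      Complex.re_ofReal_mul, Complex.add_re, Complex.ofReal_re, Complex.re_ofReal_mul,
      e_sq_re (hx0 k), ← hc]
    ring
  have hYlow : -(K₀ * (a ^ 2 + a * δ)) ≤ Y.re / m := by
    have h1 : -‖Y‖ ≤ Y.re := by
      have := Complex.abs_re_le_norm Y
      exact (abs_le.1 this).1
    have h2 : -‖Y‖ / m ≤ Y.re / m := div_le_div_of_nonneg_right h1 hm0.le
    rw [neg_div] at h2
    linarith
  refine ⟨u, hu0, hu1, ?_, ?_, ?_, ?_⟩
  · -- the norm of the mean of the inverses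
    have e1 : ‖(∑ k, (x k)⁻¹) / (m : ℂ)‖ = ‖∑ k, conj ((x k)⁻¹)‖ / m := by
      rw [norm_div, Complex.norm_natCast, ← map_sum, RCLike.norm_conj]
    have e2 : ∑ k, conj ((x k)⁻¹) = Y + ∑ k, (a : ℂ) * (‖x k‖ ^ (p - 2) : ℝ)
        * ((p / 2 : ℝ) + ((p - 2) / 2 : ℝ) * (x k / ‖x k‖) ^ 2) -
        ∑ k, ((‖x k‖ ^ (p - 1) - ‖x k‖⁻¹ : ℝ) : ℂ) * (x k / ‖x k‖) := by
      rw [hYd, ← Finset.sum_add_distrib, ← Finset.sum_sub_distrib]
      refine Finset.sum_congr rfl fun k _ => ?_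
      rw [conj_inv (hx0 k), chi_eq (hx0 k), Complex.ofReal_sub]
      ring
    have h3 : ‖∑ k, (a : ℂ) * (‖x k‖ ^ (p - 2) : ℝ)
        * ((p / 2 : ℝ) + ((p - 2) / 2 : ℝ) * (x k / ‖x k‖) ^ 2)‖ / m ≤ 2 * a + 18 * K1 * a := by
      have h4 : ∀ k, ‖(a : ℂ) * (‖x k‖ ^ (p - 2) : ℝ)
          * ((p / 2 : ℝ) + ((p - 2) / 2 : ℝ) * (x k / ‖x k‖) ^ 2)‖ ≤
          2 * a * 1 + 2 * a * |‖x k‖ ^ (p - 2) - 1| := by
        intro k
        have hr : 0 ≤ ‖x k‖ ^ (p - 2) := Real.rpow_nonneg (norm_nonneg _) _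
        have h5 : ‖((p / 2 : ℝ) : ℂ) + ((p - 2) / 2 : ℝ) * (x k / ‖x k‖) ^ 2‖ ≤ 2 := by
          refine (norm_add_le _ _).trans ?_
          rw [norm_mul, norm_pow, e_norm (hx0 k), Complex.norm_real, Complex.norm_real,
            Real.norm_of_nonneg (by linarith), Real.norm_of_nonneg (by linarith)]
          linarith
        rw [norm_mul, norm_mul, Complex.norm_real, Complex.norm_real, Real.norm_of_nonneg ha0,
          Real.norm_of_nonneg hr]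
        have h6 : ‖x k‖ ^ (p - 2) ≤ 1 + |‖x k‖ ^ (p - 2) - 1| := by
          have := le_abs_self (‖x k‖ ^ (p - 2) - 1)
          linarith
        calc a * ‖x k‖ ^ (p - 2) * ‖((p / 2 : ℝ) : ℂ) + ((p - 2) / 2 : ℝ) * (x k / ‖x k‖) ^ 2‖ ≤
            a * (1 + |‖x k‖ ^ (p - 2) - 1|) * 2 := by
              apply mul_le_mul (mul_le_mul_of_nonneg_left h6 ha0) h5 (norm_nonneg _)
              positivity
          _ = _ := by ring
      refine (norm_sum_div_le _ _ h4).trans ?_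
      rw [av_add, av_mul, av_mul, av_const hm]
      have h7 : 2 * a * av (fun k => |‖x k‖ ^ (p - 2) - 1|) ≤ 2 * a * (9 * K1 * a) :=
        mul_le_mul_of_nonneg_left hb1 (by positivity)
      nlinarith [mul_nonneg hK1.le (by linarith : (0:ℝ) ≤ a - a ^ 2)]
    have h8 : ‖∑ k, ((‖x k‖ ^ (p - 1) - ‖x k‖⁻¹ : ℝ) : ℂ) * (x k / ‖x k‖)‖ / m ≤
        6 * a + 6 * K1 * a := by
      refine (norm_sum_div_le _ (fun k => |‖x k‖ ^ (p - 1) - ‖x k‖⁻¹|) fun k => ?_).trans hb3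
      rw [norm_mul, e_norm (hx0 k), mul_one, Complex.norm_real, Real.norm_eq_abs]
    rw [e1, e2]
    have h9 : ‖Y + ∑ k, (a : ℂ) * (‖x k‖ ^ (p - 2) : ℝ)
        * ((p / 2 : ℝ) + ((p - 2) / 2 : ℝ) * (x k / ‖x k‖) ^ 2) -
        ∑ k, ((‖x k‖ ^ (p - 1) - ‖x k‖⁻¹ : ℝ) : ℂ) * (x k / ‖x k‖)‖ / m ≤
        ‖Y‖ / m + ‖∑ k, (a : ℂ) * (‖x k‖ ^ (p - 2) : ℝ)
        * ((p / 2 : ℝ) + ((p - 2) / 2 : ℝ) * (x k / ‖x k‖) ^ 2)‖ / m +
        ‖∑ k, ((‖x k‖ ^ (p - 1) - ‖x k‖⁻¹ : ℝ) : ℂ) * (x k / ‖x k‖)‖ / m := by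
      rw [← add_div, ← add_div]
      apply div_le_div_of_nonneg_right _ hm0.le
      exact (norm_sub_le _ _).trans (add_le_add (norm_add_le _ _) le_rfl)
    have h10 : K₀ * (a ^ 2 + a * δ) ≤ K₀ * (2 * a) := by
      apply mul_le_mul_of_nonneg_left _ hK₀.le
      nlinarith
    nlinarith
  · -- the real part of the mean of the inverses
    have e1 : ((∑ k, (x k)⁻¹) / (m : ℂ)).re = av (fun k => ‖x k‖⁻¹ * c k) := by
      unfold av
      rw [Complex.div_natCast_re, Complex.re_sum]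
      congr 1
      refine Finset.sum_congr rfl fun k _ => ?_
      rw [inv_re (hx0 k), ← hc]
    have h1 : ∀ k, (‖x k‖ ^ (p - 1) * c k - a * ‖x k‖ ^ (p - 2) * (1 + (p - 2) * c k ^ 2)) +
        (a * 1 + a * (p - 2) * c k ^ 2) - 2 * a * |‖x k‖ ^ (p - 2) - 1| -
        |‖x k‖ ^ (p - 1) - ‖x k‖⁻¹| * |c k| ≤ ‖x k‖⁻¹ * c k := by
      intro k
      have h2 : (‖x k‖ ^ (p - 1) - ‖x k‖⁻¹) * c k ≤ |‖x k‖ ^ (p - 1) - ‖x k‖⁻¹| * |c k| := by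
        rw [← abs_mul]
        exact le_abs_self _
      have h3 : -(2 * |‖x k‖ ^ (p - 2) - 1|) ≤ (‖x k‖ ^ (p - 2) - 1) * (1 + (p - 2) * c k ^ 2) := by
        have h4 : 0 ≤ 1 + (p - 2) * c k ^ 2 := by
          have := sq_nonneg (c k)
          nlinarith
        have h5 : 1 + (p - 2) * c k ^ 2 ≤ 2 := by
          have := hcsq k
          nlinarith
        have h6 := neg_abs_le (‖x k‖ ^ (p - 2) - 1)
        nlinarith [abs_nonneg (‖x k‖ ^ (p - 2) - 1)]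
      nlinarith [mul_le_mul_of_nonneg_left h3 ha0]
    have h2 := av_mono h1
    rw [av_sub, av_sub, av_add, av_add, av_mul, av_mul, av_mul, av_const hm, ← hYre, ← hq] at h2
    rw [e1]
    have h3 : 2 * a * av (fun k => |‖x k‖ ^ (p - 2) - 1|) ≤ 2 * a * (9 * K1 * a) :=
      mul_le_mul_of_nonneg_left hb1 (by positivity)
    rw [husq]
    have h4 : K₀ * (a ^ 2 + a * δ) ≤ K₀ * (2 * (a * δ)) := by
      apply mul_le_mul_of_nonneg_left _ hK₀.le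
      nlinarith
    have h5 : K1 * a ^ 2 ≤ K1 * (a * δ) := by
      apply mul_le_mul_of_nonneg_left _ hK1.le
      nlinarith
    have h6 : √c2 * √κ * (a * δ) * u ≤ √c2 * √κ * (a * δ) * 1 := by
      apply mul_le_mul_of_nonneg_left hu1
      positivity
    nlinarith
  · -- the real part of the mean of the squares
    have e1 : ((∑ k, ((x k)⁻¹) ^ 2) / (m : ℂ)).re = av (fun k => (‖x k‖ ^ 2)⁻¹ * (2 * c k ^ 2 - 1)) := by
      unfold av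
      rw [Complex.div_natCast_re, Complex.re_sum]
      congr 1
      refine Finset.sum_congr rfl fun k _ => ?_
      rw [inv_sq_re (hx0 k), ← hc]
    have h1 : ∀ k, 2 * c k ^ 2 - 1 - |(‖x k‖ ^ 2)⁻¹ - 1| ≤ (‖x k‖ ^ 2)⁻¹ * (2 * c k ^ 2 - 1) := by
      intro k
      have h2 : |2 * c k ^ 2 - 1| ≤ 1 := by
        rw [abs_le]
        constructor
        · nlinarith [sq_nonneg (c k)]
        · linarith [hcsq k]
      have h3 : -(|(‖x k‖ ^ 2)⁻¹ - 1| * 1) ≤ ((‖x k‖ ^ 2)⁻¹ - 1) * (2 * c k ^ 2 - 1) := by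
        have h4 := neg_abs_le (((‖x k‖ ^ 2)⁻¹ - 1) * (2 * c k ^ 2 - 1))
        rw [abs_mul] at h4
        have h5 := mul_le_mul_of_nonneg_left h2 (abs_nonneg ((‖x k‖ ^ 2)⁻¹ - 1))
        linarith
      nlinarith
    have h2 := av_mono h1
    rw [av_sub, av_sub, av_mul, av_const hm, ← hq] at h2
    rw [e1, husq]
    linarith
  · -- the large inverses
    have h1 : ∀ k ∈ Finset.univ, (if 2 < ‖(x k)⁻¹‖ then ‖(x k)⁻¹‖ ^ 2 else 0) ≤ K1 * T k := by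
      intro k _
      split_ifs with h
      · rw [norm_inv] at h ⊢
        have h0 : 0 < ‖x k‖ := norm_pos_iff.2 (hx0 k)
        rw [inv_pow]
        apply hC k
        rw [lt_inv_comm₀ (by norm_num) h0] at h
        rw [one_div]
        exact h
      · exact mul_nonneg hK1.le (hT0 k)
    refine (Finset.sum_le_sum h1).trans ?_
    rw [← Finset.mul_sum]
    have h2 : ∑ k, T k ≤ 6 * a ^ 2 * m := by
      have h3 := hT6
      unfold av at h3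
      rwa [div_le_iff₀ hm0] at h3
    calc K1 * ∑ k, T k ≤ K1 * (6 * a ^ 2 * m) := mul_le_mul_of_nonneg_left h2 hK1.le
      _ = _ := by ring

theorem t_REAL (h : S_PTW) : S_REAL := by
  intro p hp2 hp3 K₀ hK₀
  have hp0 : 0 < p := by linarith
  have hp1 : 0 < p - 1 := by linarith
  have hpp : 0 < p + 2 := by linarith
  obtain ⟨η, hη⟩ : ∃ η : ℝ, η = (p - 2) / (p * (p + 2)) := ⟨_, rfl⟩
  have hη0 : 0 < η := by
    rw [hη]
    exact div_pos (by linarith) (by positivity)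
  obtain ⟨K1, hK1, hP⟩ := h p hp2 hp3 η hη0
  obtain ⟨κ, hκ⟩ : ∃ κ : ℝ, κ = p * (p - 1) / 2 := ⟨_, rfl⟩
  have hκ0 : 0 ≤ κ := by
    rw [hκ]
    positivity
  have hκ3 : κ ≤ 3 := by
    rw [hκ]
    nlinarith
  obtain ⟨c2, hc2⟩ : ∃ c2 : ℝ, c2 = 2 * p / (p + 2) + η := ⟨_, rfl⟩
  have hc20 : 0 ≤ c2 := by
    rw [hc2]
    positivity
  have hc2κ : c2 * κ = (p - 1) * (2 * p ^ 2 + p - 2) / (2 * (p + 2)) := by
    rw [hc2, hκ, hη]
    field_simp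
    ring
  have hc24 : c2 ≤ 4 := by
    have h1 : 2 * p / (p + 2) ≤ 2 := by
      rw [div_le_iff₀ hpp]
      linarith
    have h2 : η ≤ 1 := by
      rw [hη, div_le_one (by positivity)]
      nlinarith
    linarith
  obtain ⟨c, hc⟩ : ∃ c : ℝ, c = √c2 * √κ := ⟨_, rfl⟩
  have hc0 : 0 ≤ c := by
    rw [hc]
    positivity
  have hcsq : c ^ 2 = (p - 1) * (2 * p ^ 2 + p - 2) / (2 * (p + 2)) := by
    rw [hc, mul_pow, Real.sq_sqrt hc20, Real.sq_sqrt hκ0, hc2κ]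
  have hc1 : c < p - 1 := by
    apply lt_of_pow_lt_pow_left₀ 2 hp1.le
    rw [hcsq, div_lt_iff₀ (by positivity)]
    have h1 : (p - 1) * (2 * p ^ 2 + p - 2) < (p - 1) * ((p - 1) * (2 * (p + 2))) := by
      apply mul_lt_mul_of_pos_left _ hp1
      nlinarith
    calc (p - 1) * (2 * p ^ 2 + p - 2) < (p - 1) * ((p - 1) * (2 * (p + 2))) := h1
      _ = _ := by ring
  have hc19 : c ^ 2 ≤ 19 / 10 * (p - 1) := by
    rw [hcsq, div_le_iff₀ (by positivity)]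
    have h1 : (p - 1) * (2 * p ^ 2 + p - 2) ≤ (p - 1) * (19 / 10 * (2 * (p + 2))) := by
      apply mul_le_mul_of_nonneg_left _ hp1.le
      nlinarith
    linarith
  obtain ⟨μ, hμ⟩ : ∃ μ : ℝ, μ = min (1 / 80) ((p - 1 - c) / 4) := ⟨_, rfl⟩
  have hμ0 : 0 < μ := by
    rw [hμ]
    exact lt_min (by norm_num) (by linarith)
  have hbr := bracket hp2 hp3 hc1 hc19
  rw [← hμ] at hbr
  obtain ⟨C, hC⟩ : ∃ C : ℝ, C = 24 * K1 + 2 * K₀ + c + 5 * K1 := ⟨_, rfl⟩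
  have hC0 : 0 < C := by
    rw [hC]
    positivity
  refine ⟨min 1 ((μ / C) ^ (1 / (p - 2))), μ, 8 + 24 * K1 + 2 * K₀, ?_, hμ0, by positivity, ?_⟩
  · exact lt_min zero_lt_one (Real.rpow_pos_of_pos (div_pos hμ0 hC0) _)
  intro m hm a x ha0 haa hx0 hH1 hH2 hH3
  have hm0 : (0 : ℝ) < m := by exact_mod_cast hm
  have ha1 : a ≤ 1 := haa.trans (min_le_left _ _)
  have haμ : a ≤ (μ / C) ^ (1 / (p - 2)) := haa.trans (min_le_right _ _)
  obtain ⟨δ, hδ⟩ : ∃ δ : ℝ, δ = a ^ (p - 2) := ⟨_, rfl⟩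
  have hδ0 : 0 ≤ δ := by
    rw [hδ]
    exact Real.rpow_nonneg ha0 _
  have hp20 : 0 < p - 2 := by linarith
  have hδ1 : δ ≤ 1 := by
    rw [hδ]
    exact Real.rpow_le_one ha0 ha1 hp20.le
  have haδ : a ≤ δ := by
    rcases ha0.eq_or_lt with h0 | h0
    · rw [← h0]
      exact hδ0
    · rw [hδ]
      calc a = a ^ (1 : ℝ) := (Real.rpow_one a).symm
        _ ≤ a ^ (p - 2) := Real.rpow_le_rpow_of_exponent_ge h0 ha1 (by linarith)
  have hδC : C * δ ≤ μ := by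
    have h1 : δ ≤ μ / C := by
      rw [hδ]
      calc a ^ (p - 2) ≤ ((μ / C) ^ (1 / (p - 2))) ^ (p - 2) := Real.rpow_le_rpow ha0 haμ hp20.le
        _ = μ / C := by
          rw [← Real.rpow_mul (div_pos hμ0 hC0).le, one_div, inv_mul_cancel₀ hp20.ne', Real.rpow_one]
    rw [le_div_iff₀ hC0] at h1
    linarith
  have hap1 : a ^ (p - 1) = a * δ := by
    rcases ha0.eq_or_lt with h0 | h0
    · rw [← h0, Real.zero_rpow hp1.ne', zero_mul]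
    · rw [hδ, mul_comm, ← Real.rpow_add_one h0.ne']
      congr 1
      ring
  have hap : a ^ p = a ^ 2 * δ := by
    rcases ha0.eq_or_lt with h0 | h0
    · rw [← h0, Real.zero_rpow hp0.ne']
      ring
    · rw [hδ, ← Real.rpow_natCast a 2, ← Real.rpow_add h0]
      congr 1
      push_cast
      ring
  obtain ⟨T, hT⟩ : ∃ T : Fin m → ℝ, ∀ k, T k = (‖x k‖ ^ p - 1) + p / 2 * ((‖x k‖ ^ 2)⁻¹ - 1) :=
    ⟨_, fun k => rfl⟩
  have hPk := fun k => hP ‖x k‖ (T k) (norm_pos_iff.2 (hx0 k)) (hT k)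
  have hTm : av T ≤ κ * (a ^ 2 * (1 + δ)) := by
    unfold av
    rw [div_le_iff₀ hm0]
    have h1 : ∑ k, T k = (∑ k, ‖x k‖ ^ p - m) + p / 2 * (∑ k, ‖(x k)⁻¹‖ ^ 2 - m) := by
      have h2 : ∀ k ∈ Finset.univ, T k = (‖x k‖ ^ p - 1) + p / 2 * (‖(x k)⁻¹‖ ^ 2 - 1) := by
        intro k _
        rw [hT, norm_inv, inv_pow]
      rw [Finset.sum_congr rfl h2, Finset.sum_add_distrib, ← Finset.mul_sum, Finset.sum_sub_distrib,
        Finset.sum_sub_distrib]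
      simp
    rw [h1]
    rw [← hκ, hap] at hH1
    have h3 : p / 2 * (∑ k, ‖(x k)⁻¹‖ ^ 2 - m) ≤ 0 :=
      mul_nonpos_of_nonneg_of_nonpos (by linarith) (by linarith)
    linarith
  rw [hap1] at hH3
  obtain ⟨u, hu0, hu1, r1, r2, r3, r4⟩ := core hm x hx0 hp2 hp3 ha0 ha1 hδ0 hδ1 haδ T
    (fun k => (hPk k).1) hTm hκ0 hκ3 hc20 hc24 hK1 hK₀ (fun k => (hPk k).2.1)
    (fun k => (hPk k).2.2.1) (fun k => (hPk k).2.2.2.1) (fun k => by
      have := (hPk k).2.2.2.2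
      rwa [← hc2] at this) hH3
  rw [← hc] at r2
  refine ⟨r1, ?_, ?_⟩
  · intro τ hτ0 hτ1
    have hb := hbr u τ hu0 hu1 hτ0 hτ1
    have haτ : 0 ≤ a * τ := mul_nonneg ha0 hτ0
    have h1 := mul_le_mul_of_nonneg_left r2 hτ0
    have h2 := mul_le_mul_of_nonneg_left r3 (by positivity : (0:ℝ) ≤ a * τ ^ 2 / 2)
    have h3 : a * τ * (2 * μ) ≤ a * τ * (1 + (p - 2) * u ^ 2 - c * u + τ * (u ^ 2 - 1 / 2)) :=
      mul_le_mul_of_nonneg_left hb haτ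
    have h4 : a * τ * (C * δ) ≤ a * τ * μ := mul_le_mul_of_nonneg_left hδC haτ
    have h5 : a * τ ^ 2 / 2 * (9 * K1 * a) ≤ a * τ * (5 * K1 * δ) := by
      have h6 : τ ^ 2 / 2 * (9 * K1 * a) ≤ τ * (5 * K1 * δ) := by
        have h7 : τ ^ 2 ≤ τ := by nlinarith
        have h8 : K1 * a ≤ K1 * δ := mul_le_mul_of_nonneg_left haδ hK1.le
        calc τ ^ 2 / 2 * (9 * K1 * a) = τ ^ 2 * (9 / 2 * (K1 * a)) := by ring
          _ ≤ τ * (5 * (K1 * δ)) := by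
              apply mul_le_mul h7 _ (by positivity) hτ0
              nlinarith [mul_nonneg hK1.le hδ0]
          _ = _ := by ring
      calc a * τ ^ 2 / 2 * (9 * K1 * a) = a * (τ ^ 2 / 2 * (9 * K1 * a)) := by ring
        _ ≤ a * (τ * (5 * K1 * δ)) := mul_le_mul_of_nonneg_left h6 ha0
        _ = _ := by ring
    rw [hC] at h4
    nlinarith
  · refine r4.trans ?_
    apply mul_le_mul_of_nonneg_right _ (by positivity)
    nlinarith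

end Pool.Agent.H105.BV

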